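import Pool.Agent.Helper13.JO.Defs

/-!
# The von Mangoldt function of a number field (module A3 of Jones' conjecture)
-/

set_option autoImplicit false

namespace Pool.Agent.Helper64.JO

open Pool.Agent.Helper13.JO Ideal UniqueFactorizationMonoid

section Ideals

variable (K : Type) [Field K] [NumberField K]

/-- the ideals of norm `n` -/
noncomputable def Id (n : ℕ) : Finset (Ideal (NumberField.RingOfIntegers K)) :=
  (finite_setOfPred_absNorm_eq (S := NumberField.RingOfIntegers K) n).toFinset

theorem mem_Id {n : ℕ} {I : Ideal (NumberField.RingOfIntegers K)} : I ∈ Id K n ↔ absNorm I = n := by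
  simp [Id]

theorem idc_eq (n : ℕ) : idc K n = (Id K n).card := by
  exact Nat.card_eq_card_finite_toFinset
    (finite_setOfPred_absNorm_eq (S := NumberField.RingOfIntegers K) n)

open scoped Classical in
/-- the prime ideals of norm at most `n` -/
noncomputable def Pr (n : ℕ) : Finset (Ideal (NumberField.RingOfIntegers K)) :=
  ((finite_setOfPred_absNorm_le (S := NumberField.RingOfIntegers K) n).toFinset).filter
    fun P => Prime P

theorem mem_Pr {n : ℕ} {P : Ideal (NumberField.RingOfIntegers K)} :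
    P ∈ Pr K n ↔ absNorm P ≤ n ∧ Prime P := by
  simp [Pr]

variable {K} in
theorem two_le_absNorm {P : Ideal (NumberField.RingOfIntegers K)} (hP : Prime P) :
    2 ≤ absNorm P := by
  have h0 : absNorm P ≠ 0 := fun h => hP.ne_zero (absNorm_eq_zero_iff.1 h)
  have h1 : absNorm P ≠ 1 := fun h => hP.not_isUnit (by
    rw [absNorm_eq_one_iff.1 h]; exact Ideal.isUnit_iff.2 rfl)
  omega

/-- the von Mangoldt function of `K` -/
noncomputable def laFun (n : ℕ) : ℝ :=
  ∑ P ∈ Pr K n, ∑ k ∈ Finset.Icc 1 n, if absNorm P ^ k = n then Real.log (absNorm P) else 0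

theorem laFun_eq {e n : ℕ} (he : e ≤ n) : laFun K e = ∑ P ∈ Pr K n, ∑ k ∈ Finset.Icc 1 n,
    if absNorm P ^ k = e then Real.log (absNorm P) else 0 := by
  classical
  unfold laFun
  have h1 : ∀ P ∈ Pr K e, ∑ k ∈ Finset.Icc 1 e, (if absNorm P ^ k = e then Real.log (absNorm P) else 0)
      = ∑ k ∈ Finset.Icc 1 n, if absNorm P ^ k = e then Real.log (absNorm P) else 0 := by
    intro P hP
    refine Finset.sum_subset (Finset.Icc_subset_Icc_right he) fun k hk hk' => ?_
    rw [if_neg]
    intro h
    rw [Finset.mem_Icc] at hk hk'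
    have h2 : 2 ^ k ≤ absNorm P ^ k := Nat.pow_le_pow_left (two_le_absNorm ((mem_Pr K).1 hP).2) k
    have h3 : k < 2 ^ k := Nat.lt_two_pow_self
    omega
  rw [Finset.sum_congr rfl h1]
  refine Finset.sum_subset ?_ ?_
  · intro P hP
    rw [mem_Pr] at hP ⊢
    exact ⟨hP.1.trans he, hP.2⟩
  · intro P hP hP'
    refine Finset.sum_eq_zero fun k hk => ?_
    rw [if_neg]
    intro h
    rw [mem_Pr] at hP hP'
    rw [Finset.mem_Icc] at hk
    apply hP'
    refine ⟨?_, hP.2⟩
    rw [← h]
    exact Nat.le_self_pow (by omega) _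

/-- the number of ideals, as an arithmetic function -/
noncomputable def aK : ArithmeticFunction ℝ := ⟨fun n => if n = 0 then 0 else (idc K n : ℝ), by simp⟩

theorem aK_apply {n : ℕ} (hn : n ≠ 0) : aK K n = (Id K n).card := by
  rw [← idc_eq]
  change (if n = 0 then (0:ℝ) else (idc K n : ℝ)) = _
  rw [if_neg hn]

/-- the von Mangoldt function, as an arithmetic function -/
noncomputable def laK : ArithmeticFunction ℝ := ⟨laFun K, by simp [laFun]⟩

theorem laK_apply (n : ℕ) : laK K n = laFun K n := rfl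

open scoped Classical in
theorem sum_aux {n : ℕ} (hn : n ≠ 0) (Q : Ideal (NumberField.RingOfIntegers K)) (hQ : Q ≠ 0) :
    ∑ x ∈ n.divisorsAntidiagonal, (if absNorm Q = x.2 then aK K x.1 else 0) =
      (((Id K n).filter fun I => Q ∣ I).card : ℝ) := by
  have hq : absNorm Q ≠ 0 := fun h => hQ (absNorm_eq_zero_iff.1 h)
  by_cases hd : absNorm Q ∣ n
  · obtain ⟨m, rfl⟩ := hd
    have hm : m ≠ 0 := fun h => hn (by rw [h, mul_zero])
    rw [Finset.sum_eq_single_of_mem (m, absNorm Q)
      (Nat.mem_divisorsAntidiagonal.2 ⟨mul_comm _ _, hn⟩)]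
    · rw [if_pos rfl, aK_apply K hm]
      norm_cast
      refine Finset.card_bij (fun J _ => Q * J) ?_ ?_ ?_
      · intro J hJ
        rw [Finset.mem_filter, mem_Id, map_mul, (mem_Id K).1 hJ]
        exact ⟨rfl, dvd_mul_right _ _⟩
      · intro J _ J' _ h
        exact mul_left_cancel₀ hQ h
      · intro I hI
        rw [Finset.mem_filter, mem_Id] at hI
        obtain ⟨h1, J, rfl⟩ := hI
        refine ⟨J, ?_, rfl⟩
        rw [mem_Id]
        rw [map_mul] at h1
        exact Nat.eq_of_mul_eq_mul_left (Nat.pos_of_ne_zero hq) h1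
    · rintro ⟨d, e⟩ hx hne
      rw [if_neg]
      rintro rfl
      apply hne
      rw [Nat.mem_divisorsAntidiagonal] at hx
      have : d = m := by
        have h1 : d * absNorm Q = absNorm Q * m := hx.1
        rw [mul_comm (absNorm Q) m] at h1
        exact Nat.eq_of_mul_eq_mul_right (Nat.pos_of_ne_zero hq) h1
      rw [this]
  · rw [Finset.sum_eq_zero, Finset.filter_eq_empty_iff.2, Finset.card_empty, Nat.cast_zero]
    · intro I hI hQI
      apply hd
      rw [← (mem_Id K).1 hI]
      obtain ⟨J, rfl⟩ := hQI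
      rw [map_mul]
      exact dvd_mul_right _ _
    · rintro ⟨d, e⟩ hx
      rw [if_neg]
      rintro rfl
      apply hd
      rw [← (Nat.mem_divisorsAntidiagonal.1 hx).1]
      exact dvd_mul_left _ _

open scoped Classical in
theorem sum_log {n : ℕ} (hn : n ≠ 0) (I : Ideal (NumberField.RingOfIntegers K))
    (hI : absNorm I = n) :
    ∑ P ∈ Pr K n, ∑ k ∈ Finset.Icc 1 n, (if P ^ k ∣ I then Real.log (absNorm P) else 0) =
      Real.log n := by
  have hI0 : I ≠ 0 := by
    rintro rfl
    apply hn
    rw [← hI]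
    exact absNorm_bot
  have h1 : ∀ P ∈ Pr K n, ∑ k ∈ Finset.Icc 1 n, (if P ^ k ∣ I then Real.log (absNorm P) else 0) =
      ((normalizedFactors I).count P : ℝ) * Real.log (absNorm P) := by
    intro P hP
    have hpr := ((mem_Pr K).1 hP).2
    have h2 : ∀ k, P ^ k ∣ I ↔ k ≤ (normalizedFactors I).count P := by
      intro k
      rw [pow_dvd_iff_le_emultiplicity, emultiplicity_eq_count_normalizedFactors hpr.irreducible hI0,
        normalize_eq, Nat.cast_le]
    have h3 : (normalizedFactors I).count P ≤ n := by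
      have h4 := (h2 _).2 le_rfl
      obtain ⟨J, hJ⟩ := h4
      have h5 : absNorm P ^ ((normalizedFactors I).count P) ≤ n := by
        rw [← hI]
        conv_rhs => rw [hJ]
        rw [map_mul, map_pow]
        refine Nat.le_mul_of_pos_right _ (Nat.pos_of_ne_zero fun h0 => hI0 ?_)
        rw [hJ, absNorm_eq_zero_iff.1 h0]
        exact mul_zero _
      have h6 : 2 ^ ((normalizedFactors I).count P) ≤ absNorm P ^ ((normalizedFactors I).count P) :=
        Nat.pow_le_pow_left (two_le_absNorm hpr) _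
      have h7 : (normalizedFactors I).count P < 2 ^ ((normalizedFactors I).count P) :=
        Nat.lt_two_pow_self
      omega
    rw [← Finset.sum_filter, Finset.sum_const, nsmul_eq_mul]
    congr 2
    have h4 : (Finset.Icc 1 n).filter (fun k => P ^ k ∣ I) =
        Finset.Icc 1 ((normalizedFactors I).count P) := by
      ext k
      rw [Finset.mem_filter, Finset.mem_Icc, Finset.mem_Icc, h2]
      omega
    rw [h4, Nat.card_Icc]
    omega
  rw [Finset.sum_congr rfl h1]
  have h2 : (normalizedFactors I).toFinset ⊆ Pr K n := by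
    intro P hP
    rw [Multiset.mem_toFinset] at hP
    rw [mem_Pr]
    refine ⟨?_, prime_of_normalized_factor P hP⟩
    obtain ⟨J, hJ⟩ := dvd_of_mem_normalizedFactors hP
    rw [← hI]
    conv_rhs => rw [hJ]
    rw [map_mul]
    refine Nat.le_mul_of_pos_right _ (Nat.pos_of_ne_zero fun h0 => hI0 ?_)
    rw [hJ, absNorm_eq_zero_iff.1 h0]
    exact mul_zero _
  rw [← Finset.sum_subset h2 fun P _ hP => by
    rw [Multiset.mem_toFinset] at hP
    rw [Multiset.count_eq_zero_of_notMem hP, Nat.cast_zero, zero_mul]]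
  have h3 : (n : ℝ) = ∏ P ∈ (normalizedFactors I).toFinset,
      (absNorm P : ℝ) ^ ((normalizedFactors I).count P) := by
    have h4 : I = ∏ P ∈ (normalizedFactors I).toFinset, P ^ ((normalizedFactors I).count P) := by
      conv_lhs => rw [← Ideal.prod_normalizedFactors_eq_self hI0]
      exact Finset.prod_multiset_count _
    have h5 := congrArg absNorm h4
    rw [hI, map_prod] at h5
    rw [h5]
    push_cast
    refine Finset.prod_congr rfl fun P _ => ?_
    rw [map_pow]
    push_cast
    rfl
  rw [h3, Real.log_prod]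
  · refine Finset.sum_congr rfl fun P _ => ?_
    rw [Real.log_pow]
  · intro P hP
    have h4 : absNorm P ≠ 0 := by
      have := two_le_absNorm ((mem_Pr K).1 (h2 hP)).2
      omega
    exact pow_ne_zero _ (by exact_mod_cast h4)

theorem conv_eq (n : ℕ) : (aK K * laK K) n = aK K n * Real.log n := by
  classical
  by_cases hn : n = 0
  · subst hn
    simp
  rw [ArithmeticFunction.mul_apply]
  have h1 : ∀ x ∈ n.divisorsAntidiagonal, aK K x.1 * laK K x.2 = ∑ P ∈ Pr K n,
      ∑ k ∈ Finset.Icc 1 n, Real.log (absNorm P) * (if absNorm (P ^ k) = x.2 then aK K x.1 else 0) := by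
    intro x hx
    have hx' := Nat.mem_divisorsAntidiagonal.1 hx
    have hle : x.2 ≤ n := Nat.le_of_dvd (Nat.pos_of_ne_zero hn) ⟨x.1, by rw [← hx'.1, mul_comm]⟩
    rw [laK_apply, laFun_eq K hle, Finset.mul_sum]
    refine Finset.sum_congr rfl fun P _ => ?_
    rw [Finset.mul_sum]
    refine Finset.sum_congr rfl fun k _ => ?_
    rw [map_pow]
    split_ifs
    · ring
    · ring
  rw [Finset.sum_congr rfl h1, Finset.sum_comm]
  have h2 : ∀ P ∈ Pr K n, ∑ x ∈ n.divisorsAntidiagonal, ∑ k ∈ Finset.Icc 1 n,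
      Real.log (absNorm P) * (if absNorm (P ^ k) = x.2 then aK K x.1 else 0) =
      ∑ k ∈ Finset.Icc 1 n, ∑ I ∈ Id K n, if P ^ k ∣ I then Real.log (absNorm P) else 0 := by
    intro P hP
    rw [Finset.sum_comm]
    refine Finset.sum_congr rfl fun k _ => ?_
    rw [← Finset.mul_sum, sum_aux K hn (P ^ k) (pow_ne_zero _ ((mem_Pr K).1 hP).2.ne_zero),
      ← Finset.sum_filter, Finset.sum_const, nsmul_eq_mul, mul_comm]
  rw [Finset.sum_congr rfl h2]
  have h3 : ∀ P ∈ Pr K n, ∑ k ∈ Finset.Icc 1 n, ∑ I ∈ Id K n,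
      (if P ^ k ∣ I then Real.log (absNorm P) else 0) =
      ∑ I ∈ Id K n, ∑ k ∈ Finset.Icc 1 n, if P ^ k ∣ I then Real.log (absNorm P) else 0 :=
    fun P _ => Finset.sum_comm
  rw [Finset.sum_congr rfl h3, Finset.sum_comm,
    Finset.sum_congr rfl fun I hI => sum_log K hn I ((mem_Id K).1 hI), Finset.sum_const,
    nsmul_eq_mul, aK_apply K hn]

theorem laFun_prime {p : ℕ} (hp : p.Prime) : (idc K p : ℝ) * Real.log p ≤ laFun K p := by
  classical
  unfold laFun
  have h1 : Id K p ⊆ Pr K p := by
    intro P hP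
    have h2 := (mem_Id K).1 hP
    rw [mem_Pr]
    refine ⟨h2.le, ?_⟩
    have h3 : P.IsPrime := isPrime_of_irreducible_absNorm (by rw [h2]; exact hp)
    refine prime_of_isPrime ?_ h3
    rintro rfl
    rw [absNorm_bot] at h2
    exact hp.ne_zero h2.symm
  have h0 : ∀ P ∈ Pr K p, ∀ k, 0 ≤ (if absNorm P ^ k = p then Real.log (absNorm P) else 0) := by
    intro P hP k
    split_ifs
    · exact Real.log_nonneg (by
        have := two_le_absNorm ((mem_Pr K).1 hP).2
        exact_mod_cast (show 1 ≤ absNorm P by omega))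
    · exact le_rfl
  calc (idc K p : ℝ) * Real.log p = ∑ P ∈ Id K p, Real.log p := by
        rw [Finset.sum_const, nsmul_eq_mul, idc_eq]
    _ ≤ ∑ P ∈ Id K p, ∑ k ∈ Finset.Icc 1 p,
          if absNorm P ^ k = p then Real.log (absNorm P) else 0 := by
        refine Finset.sum_le_sum fun P hP => ?_
        have h2 := (mem_Id K).1 hP
        refine le_trans ?_ (Finset.single_le_sum (fun k _ => h0 P (h1 hP) k)
          (Finset.mem_Icc.2 ⟨le_rfl, hp.one_lt.le⟩))
        rw [pow_one, if_pos h2, h2]
    _ ≤ _ := Finset.sum_le_sum_of_subset_of_nonneg h1 fun P hP _ =>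
        Finset.sum_nonneg fun k _ => h0 P hP k

end Ideals

/-- A3 -/
theorem mangoldt : MangoldtStmt := by
  intro K _ _
  refine ⟨aK K, laK K, ?_, ?_, ?_, conv_eq K, fun p hp => laFun_prime K hp⟩
  · intro n hn
    rw [aK_apply K hn, idc_eq]
  · rw [aK_apply K one_ne_zero]
    have : Id K 1 = {⊤} := by
      ext I
      rw [mem_Id, Finset.mem_singleton, absNorm_eq_one_iff]
    rw [this]
    simp
  · intro n
    refine Finset.sum_nonneg fun P hP => Finset.sum_nonneg fun k _ => ?_
    split_ifs
    · exact Real.log_nonneg (by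
        have := two_le_absNorm ((mem_Pr K).1 hP).2
        exact_mod_cast (show 1 ≤ absNorm P by omega))
    · exact le_rfl

end Pool.Agent.Helper64.JO
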