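import Pool.Agent.Helper64.JO.Mang

/-!
# Upper bound for the number of prime ideals of degree one (module A3 of Jones' conjecture)
-/

set_option autoImplicit false

namespace Pool.Agent.Helper64.JO

open Pool.Agent.Helper13.JO Filter

theorem eventually_small (A B : ℝ) : ∀ᶠ N : ℕ in atTop,
    A * (N : ℝ) ^ (3 / 4 : ℝ) + 4 / 3 / Real.log N * (2 * N + B * (N / Real.log N)) ≤
      3 * (N / Real.log N) := by
  have h1 : Tendsto (fun N : ℕ => (N : ℝ)) atTop atTop := tendsto_natCast_atTop_atTop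
  have h2 : ∀ᶠ N : ℕ in atTop, 8 * |B| + 1 ≤ Real.log N :=
    (Real.tendsto_log_atTop.comp h1).eventually_ge_atTop _
  have h3 : ∀ᶠ x : ℝ in atTop, ‖Real.log x‖ ≤ (1 / (6 * (|A| + 1))) * ‖x ^ (1 / 4 : ℝ)‖ :=
    (isLittleO_log_rpow_atTop (by norm_num : (0:ℝ) < 1 / 4)).def (by positivity)
  have h4 := h1.eventually h3
  filter_upwards [h2, h4, eventually_ge_atTop 2] with N hN hN' hN2
  have hNpos : (0:ℝ) < N := by exact_mod_cast (show 0 < N by omega)
  set L := Real.log N with hL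
  have hLpos : 0 < L := by
    have := abs_nonneg B
    linarith
  have h5 : |A| * (N : ℝ) ^ (3 / 4 : ℝ) ≤ 1 / 6 * (N / L) := by
    rw [Real.norm_eq_abs, Real.norm_eq_abs, abs_of_pos hLpos,
      abs_of_nonneg (Real.rpow_nonneg hNpos.le _)] at hN'
    have h6 : (N : ℝ) ^ (3 / 4 : ℝ) * (N : ℝ) ^ (1 / 4 : ℝ) = N := by
      rw [← Real.rpow_add hNpos]
      norm_num
    have h7 : 0 < (N : ℝ) ^ (3 / 4 : ℝ) := Real.rpow_pos_of_pos hNpos _
    have hA : 0 < |A| + 1 := by positivity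
    have h8 : (|A| + 1) * L ≤ 1 / 6 * (N : ℝ) ^ (1 / 4 : ℝ) := by
      have := mul_le_mul_of_nonneg_left hN' hA.le
      refine this.trans (le_of_eq ?_)
      field_simp
    rw [mul_div_assoc', le_div_iff₀ hLpos]
    calc |A| * (N : ℝ) ^ (3 / 4 : ℝ) * L ≤ (|A| + 1) * (N : ℝ) ^ (3 / 4 : ℝ) * L := by
          gcongr
          linarith
      _ = (N : ℝ) ^ (3 / 4 : ℝ) * ((|A| + 1) * L) := by ring
      _ ≤ (N : ℝ) ^ (3 / 4 : ℝ) * (1 / 6 * (N : ℝ) ^ (1 / 4 : ℝ)) := by gcongr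
      _ = 1 / 6 * ((N : ℝ) ^ (3 / 4 : ℝ) * (N : ℝ) ^ (1 / 4 : ℝ)) := by ring
      _ = 1 / 6 * N := by rw [h6]
  have h9 : 4 / 3 / L * (B * (N / L)) ≤ 1 / 6 * (N / L) := by
    have h10 : B ≤ L / 8 := by
      have := le_abs_self B
      linarith
    have h11 : 0 ≤ (N : ℝ) / L := by positivity
    calc 4 / 3 / L * (B * (N / L)) = (4 / 3 * (N / L) / L) * B := by ring
      _ ≤ (4 / 3 * (N / L) / L) * (L / 8) := by gcongr
      _ = 1 / 6 * (N / L) := by field_simp; norm_num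
  have h12 : A * (N : ℝ) ^ (3 / 4 : ℝ) ≤ |A| * (N : ℝ) ^ (3 / 4 : ℝ) := by
    have := Real.rpow_nonneg hNpos.le (3 / 4 : ℝ)
    exact mul_le_mul_of_nonneg_right (le_abs_self A) this
  have h13 : 4 / 3 / L * (2 * N) = 8 / 3 * (N / L) := by ring
  rw [mul_add, h13]
  linarith

/-- A3' -/
theorem prime_bound (h1 : IdealCountStmt) (h2 : SelbergStmt) : PrimeBoundStmt := by
  intro K _ _
  obtain ⟨ρ, δ, C, hρ, hδ, hδ1, hC, hcount⟩ := h1 K
  obtain ⟨a, La, ha, ha1, hLa, hconv, hp⟩ := mangoldt K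
  have ha0 : ∀ n, 0 ≤ a n := by
    intro n
    by_cases hn : n = 0
    · rw [hn, ArithmeticFunction.map_zero]
    · rw [ha n hn]
      exact Nat.cast_nonneg _
  have hA : ∀ x : ℝ, 1 ≤ x → |(∑ n ∈ Finset.Icc 1 ⌊x⌋₊, a n) - ρ * x| ≤ C * x ^ (1 - δ) := by
    intro x hx
    rw [Finset.sum_congr rfl fun n hn => ha n (by have := Finset.mem_Icc.1 hn; omega)]
    exact hcount x hx
  obtain ⟨C', hS⟩ := h2 a La ha1 ha0 hLa hconv ρ δ C hρ hδ hδ1 hC hA
  filter_upwards [eventually_small (ρ + C) C', eventually_ge_atTop 2] with N hN hN2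
  refine le_trans ?_ hN
  have hNpos : (0:ℝ) < N := by exact_mod_cast (show 0 < N by omega)
  have hN1 : (1:ℝ) < N := by exact_mod_cast (show 1 < N by omega)
  have hLpos : 0 < Real.log N := Real.log_pos hN1
  set y : ℝ := (N : ℝ) ^ (3 / 4 : ℝ) with hy
  have hy1 : 1 ≤ y := Real.one_le_rpow hN1.le (by norm_num)
  have hly : Real.log y = 3 / 4 * Real.log N := by rw [hy, Real.log_rpow hNpos]
  have hlypos : 0 < Real.log y := by rw [hly]; positivity
  rw [← Finset.sum_filter_add_sum_filter_not _ (fun p : ℕ => (p : ℝ) ≤ y)]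
  refine add_le_add ?_ ?_
  · have h3 : ((Finset.range (N + 1)).filter Nat.Prime).filter (fun p : ℕ => (p : ℝ) ≤ y) ⊆
        Finset.Icc 1 ⌊y⌋₊ := by
      intro p hp
      rw [Finset.mem_filter, Finset.mem_filter] at hp
      rw [Finset.mem_Icc]
      exact ⟨hp.1.2.one_lt.le, Nat.le_floor hp.2⟩
    refine (Finset.sum_le_sum_of_subset_of_nonneg h3 fun _ _ _ => Nat.cast_nonneg _).trans ?_
    have h4 := (abs_le.1 (hcount y hy1)).2
    have h5 : y ^ (1 - δ) ≤ y := by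
      conv_rhs => rw [← Real.rpow_one y]
      exact Real.rpow_le_rpow_of_exponent_le hy1 (by linarith)
    have h6 : C * y ^ (1 - δ) ≤ C * y := mul_le_mul_of_nonneg_left h5 hC
    linarith
  · have h3 : ∀ p ∈ ((Finset.range (N + 1)).filter Nat.Prime).filter (fun p : ℕ => ¬ (p : ℝ) ≤ y),
        (idc K p : ℝ) ≤ La p / Real.log y := by
      intro p hp'
      rw [Finset.mem_filter, Finset.mem_filter, not_le] at hp'
      rw [le_div_iff₀ hlypos]
      refine le_trans ?_ (hp p hp'.1.2)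
      exact mul_le_mul_of_nonneg_left (Real.log_le_log (by linarith) hp'.2.le) (Nat.cast_nonneg _)
    refine (Finset.sum_le_sum h3).trans ?_
    rw [← Finset.sum_div]
    have h4 : ((Finset.range (N + 1)).filter Nat.Prime).filter (fun p : ℕ => ¬ (p : ℝ) ≤ y) ⊆
        Finset.Icc 1 ⌊(N : ℝ)⌋₊ := by
      intro p hp
      rw [Finset.mem_filter, Finset.mem_filter, Finset.mem_range] at hp
      rw [Nat.floor_natCast, Finset.mem_Icc]
      exact ⟨hp.1.2.one_lt.le, by omega⟩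
    have h5 := (Finset.sum_le_sum_of_subset_of_nonneg h4 fun n _ _ => hLa n).trans
      (hS N (by exact_mod_cast hN2))
    rw [div_le_iff₀ hlypos]
    refine h5.trans (le_of_eq ?_)
    rw [hly]
    field_simp

end Pool.Agent.Helper64.JO
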